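import Pool.Agent.Q194.KC.Defs

/-! Upper bounds for k-capacities by inclusion in ellipsoids. -/

set_option autoImplicit false

open MeasureTheory
open scoped ENNReal

namespace Pool.Agent.Q194.KC

variable {n : ℕ}

theorem isSymplectomorphism_refl : IsSymplectomorphism (Equiv.refl (Fin n → ℂ)) := by
  refine ⟨contDiff_id, contDiff_id, fun z u v => ?_⟩
  have h : fderiv ℝ (⇑(Equiv.refl (Fin n → ℂ))) z = ContinuousLinearMap.id ℝ _ := fderiv_id
  rw [h]; rfl

theorem IsKCapacity.mono' {k : ℕ} {c : Set (Fin n → ℂ) → ℝ≥0∞} (hc : IsKCapacity k c)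
    {U V : Set (Fin n → ℂ)} (h : U ⊆ V) : c U ≤ c V :=
  hc.mono U V (Equiv.refl _) isSymplectomorphism_refl (by simpa using h)

theorem kthTerm_le (k : ℕ) (v : Fin n → ℕ) (hv : ∑ j, v j = k) (L : ℝ) (hL : 0 < L) :
    kthTerm k (fun j => ENNReal.ofReal L / (v j : ℝ≥0∞)) ≤ ENNReal.ofReal L := by
  refine sInf_le ?_
  have hL' : ENNReal.ofReal L ≠ 0 := by simpa using hL
  have hsub : ((Finset.univ.sigma fun j : Fin n => Finset.Icc 1 (v j)).image
      (fun q : (_ : Fin n) × ℕ => (q.2, q.1)) : Set (ℕ × Fin n)) ⊆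
      {p : ℕ × Fin n | 1 ≤ p.1 ∧ ENNReal.ofReal L / (v p.2 : ℝ≥0∞) ≠ ∞ ∧
        p.1 * (ENNReal.ofReal L / (v p.2 : ℝ≥0∞)) ≤ ENNReal.ofReal L} := by
    intro p hp
    simp only [Finset.coe_image, Set.mem_image, Finset.mem_coe, Finset.mem_sigma,
      Finset.mem_univ, true_and, Finset.mem_Icc] at hp
    obtain ⟨q, ⟨h1, h2⟩, rfl⟩ := hp
    have hv0 : (v q.1 : ℝ≥0∞) ≠ 0 := by
      have : v q.1 ≠ 0 := by omega
      exact_mod_cast this
    refine ⟨h1, ENNReal.div_ne_top ENNReal.ofReal_ne_top hv0, ?_⟩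
    show (q.2 : ℝ≥0∞) * (ENNReal.ofReal L / (v q.1 : ℝ≥0∞)) ≤ ENNReal.ofReal L
    calc (q.2 : ℝ≥0∞) * (ENNReal.ofReal L / (v q.1 : ℝ≥0∞))
        ≤ (v q.1 : ℝ≥0∞) * (ENNReal.ofReal L / (v q.1 : ℝ≥0∞)) := by
          gcongr
      _ = ENNReal.ofReal L := ENNReal.mul_div_cancel hv0 (ENNReal.natCast_ne_top _)
  have hcard : (k : ℕ∞) = (((Finset.univ.sigma fun j : Fin n => Finset.Icc 1 (v j)).image
      (fun q : (_ : Fin n) × ℕ => (q.2, q.1)) : Finset (ℕ × Fin n)) : Set (ℕ × Fin n)).encard := by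
    rw [Set.encard_coe_eq_coe_finsetCard, Finset.card_image_of_injective, Finset.card_sigma]
    · simp [hv]
    · rintro ⟨a, b⟩ ⟨a', b'⟩ h
      simp only [Prod.mk.injEq] at h
      obtain ⟨rfl, rfl⟩ := h
      rfl
  show (k : ℕ∞) ≤ _
  rw [hcard]
  exact Set.encard_le_encard hsub

/-- If `∑ v_j w_j ≤ L` on `Ω`, where `v` is integral with sum `k`, then `c (X_Ω) ≤ L`. -/
theorem cap_le {k : ℕ} {c : Set (Fin n → ℂ) → ℝ≥0∞} (hc : IsKCapacity k c) (hk : 1 ≤ k)
    {Ω : Set (Fin n → ℝ)} (v : Fin n → ℕ) (hv : ∑ j, v j = k) {L : ℝ} (hL : 0 < L)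
    (h : ∀ w ∈ Ω, (∀ j, 0 ≤ w j) → ∑ j, (v j : ℝ) * w j ≤ L) : c (toric Ω) ≤ ENNReal.ofReal L := by
  have hL' : ENNReal.ofReal L ≠ 0 := by simpa using hL
  have hsub : toric Ω ⊆ ellipsoid (fun j => ENNReal.ofReal L / (v j : ℝ≥0∞)) := by
    intro z hz
    have h1 := h _ hz (fun j => by positivity)
    show ∑ j, ENNReal.ofReal (Real.pi * ‖z j‖ ^ 2) / (ENNReal.ofReal L / (v j : ℝ≥0∞)) ≤ 1
    have h2 : ∀ j, ENNReal.ofReal (Real.pi * ‖z j‖ ^ 2) / (ENNReal.ofReal L / (v j : ℝ≥0∞)) =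
        ENNReal.ofReal ((v j : ℝ) * (Real.pi * ‖z j‖ ^ 2)) / ENNReal.ofReal L := by
      intro j
      rw [ENNReal.ofReal_mul (p := (v j : ℝ)) (by positivity), ENNReal.ofReal_natCast]
      rcases Nat.eq_zero_or_pos (v j) with h0 | h0
      · rw [h0]
        simp only [Nat.cast_zero, zero_mul, ENNReal.zero_div]
        rw [ENNReal.div_zero hL', ENNReal.div_top]
      · have hv0 : (v j : ℝ≥0∞) ≠ 0 := by
          have : v j ≠ 0 := by omega
          exact_mod_cast this
        rw [div_eq_mul_inv, div_eq_mul_inv (ENNReal.ofReal L),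
          ENNReal.mul_inv (Or.inl hL') (Or.inl ENNReal.ofReal_ne_top), inv_inv, div_eq_mul_inv]
        ring
    rw [Finset.sum_congr rfl fun j _ => h2 j]
    simp only [div_eq_mul_inv]
    rw [← Finset.sum_mul, ← ENNReal.ofReal_sum_of_nonneg (fun j _ => by positivity),
      ← div_eq_mul_inv]
    exact ENNReal.div_le_of_le_mul (by rw [one_mul]; exact ENNReal.ofReal_le_ofReal h1)
  refine (hc.mono' hsub).trans ?_
  rw [hc.ellipsoid]
  · exact kthTerm_le k v hv L hL
  · intro j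
    exact (ENNReal.div_pos hL' (ENNReal.natCast_ne_top _)).ne'
  · have : ∃ j, v j ≠ 0 := by
      by_contra hcon
      push_neg at hcon
      simp [hcon] at hv
      omega
    obtain ⟨j, hj⟩ := this
    exact ⟨j, ENNReal.div_ne_top ENNReal.ofReal_ne_top (by exact_mod_cast hj)⟩

/-- decreasing an integral vector to a prescribed sum -/
theorem exists_le_sum {ι : Type*} (s : Finset ι) (f : ι → ℕ) (k : ℕ) (h : k ≤ ∑ i ∈ s, f i) :
    ∃ v : ι → ℕ, (∀ i, v i ≤ f i) ∧ ∑ i ∈ s, v i = k := by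
  classical
  induction s using Finset.induction_on generalizing k with
  | empty =>
    refine ⟨fun _ => 0, fun _ => Nat.zero_le _, ?_⟩
    simp at h ⊢
    omega
  | insert a s ha ih =>
    rw [Finset.sum_insert ha] at h
    rcases Nat.lt_or_ge (f a) k with h1 | h1
    · obtain ⟨v, hv, hs⟩ := ih (k - f a) (by omega)
      refine ⟨Function.update v a (f a), fun i => ?_, ?_⟩
      · rcases eq_or_ne i a with rfl | hi
        · simp
        · simp [hi, hv i]
      · rw [Finset.sum_insert ha]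
        have : ∑ x ∈ s, Function.update v a (f a) x = ∑ x ∈ s, v x :=
          Finset.sum_congr rfl fun x hx => by
            have : x ≠ a := fun h => ha (h ▸ hx)
            simp [this]
        rw [this, hs]
        simp
        omega
    · refine ⟨fun i => if i = a then k else 0, fun i => ?_, ?_⟩
      · show (if i = a then k else 0) ≤ f i
        split_ifs with hi
        · rw [hi]; exact h1
        · exact Nat.zero_le _
      · rw [Finset.sum_insert ha]
        have : ∑ x ∈ s, (if x = a then k else 0) = 0 :=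
          Finset.sum_eq_zero fun x hx => by
            have : x ≠ a := fun h => ha (h ▸ hx)
            simp [this]
        rw [this]
        simp

end Pool.Agent.Q194.KC
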