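import Pool.Agent.Q194.KC.Vol
import Pool.Agent.Q194.KC.Upper

/-! The maximal box, and the bounds for the capacities. -/

set_option autoImplicit false

open MeasureTheory
open scoped ENNReal

namespace Pool.Agent.Q194.KC

variable {n : ℕ}

/-- the box of maximal volume -/
theorem exists_box (hn : 1 ≤ n) {Ω : Set (Fin n → ℝ)} (hΩ : IsConvexProfile Ω)
    (hX : IsToricDomain (toric Ω)) :
    ∃ a ∈ Ω, (∀ j, 0 < a j) ∧ ∀ w ∈ Ω, ∑ j, w j / a j ≤ n := by
  obtain ⟨w0, hw0, hpos⟩ := exists_pos hX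
  obtain ⟨a, ha, hmax⟩ := (profile_isCompact hΩ).exists_isMaxOn ⟨w0, hw0⟩
    (f := fun w : Fin n → ℝ => ∏ j, w j) (by fun_prop)
  have hP : 0 < ∏ j, a j := lt_of_lt_of_le (Finset.prod_pos fun j _ => hpos j) (hmax hw0)
  have ha0 : ∀ j, 0 < a j := by
    intro j
    refine lt_of_le_of_ne (hΩ.1 a ha j) fun h => ?_
    rw [Finset.prod_eq_zero (Finset.mem_univ j) h.symm] at hP
    exact lt_irrefl _ hP
  refine ⟨a, ha, ha0, fun w hw => ?_⟩
  -- the function `s ↦ ∏ (1 + s y_j)` is at most `1` on `[0, 1]`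
  set y : Fin n → ℝ := fun j => w j / a j - 1 with hy
  have h1 : ∀ s : ℝ, 0 ≤ s → s ≤ 1 → ∏ j, (1 + s * y j) ≤ 1 := by
    intro s hs0 hs1
    have h2 := hmax (profile_conv hΩ ha hw (s := 1 - s) (t := s) (by linarith) hs0 (by ring))
    have h3 : ∏ j, ((1 - s) * a j + s * w j) = (∏ j, a j) * ∏ j, (1 + s * y j) := by
      rw [← Finset.prod_mul_distrib]
      refine Finset.prod_congr rfl fun j _ => ?_
      have := (ha0 j).ne'
      simp only [hy]
      field_simp
      ring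
    have h4 : (∏ j, a j) * ∏ j, (1 + s * y j) ≤ (∏ j, a j) * 1 := by
      rw [← h3, mul_one]; exact h2
    exact le_of_mul_le_mul_left h4 hP
  have h2 : HasDerivAt (fun s : ℝ => ∏ j, (1 + s * y j)) (∑ j, y j) 0 := by
    have h3 : ∀ j ∈ (Finset.univ : Finset (Fin n)), HasDerivAt (fun s : ℝ => 1 + s * y j) (y j) 0 := by
      intro j _
      have := ((hasDerivAt_id (0 : ℝ)).mul_const (y j)).const_add 1
      simpa using this
    have h4 := HasDerivAt.fun_finset_prod h3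
    simpa using h4
  have h3 : ∑ j, y j ≤ 0 := by
    have h4 := (hasDerivAt_iff_tendsto_slope.1 h2).mono_left
      (nhdsWithin_mono (0 : ℝ) (fun s (hs : s ∈ Set.Ioi (0 : ℝ)) => (ne_of_gt hs : s ≠ 0)))
    refine le_of_tendsto h4 ?_
    have h5 : ∀ᶠ s in nhdsWithin (0 : ℝ) (Set.Ioi 0), s ∈ Set.Ioo (0 : ℝ) 1 :=
      Ioo_mem_nhdsGT one_pos
    filter_upwards [h5] with s hs
    rw [slope_def_field]
    refine div_nonpos_of_nonpos_of_nonneg ?_ (by linarith [hs.1])
    have := h1 s hs.1.le hs.2.le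
    simpa using this
  have h4 : ∑ j, y j = ∑ j, w j / a j - n := by
    simp [hy, Finset.sum_sub_distrib]
  linarith

/-- the bound with the loss `n - 1` -/
theorem cap_le_box {k : ℕ} {c : Set (Fin n → ℂ) → ℝ≥0∞} (hc : IsKCapacity k c) (hn : 1 ≤ n)
    (hk : 1 ≤ k) {Ω : Set (Fin n → ℝ)} (hΩ : IsConvexProfile Ω) {a : Fin n → ℝ}
    (ha : ∀ j, 0 < a j) (h : ∀ w ∈ Ω, ∑ j, w j / a j ≤ n) :
    c (toric Ω) ≤ ENNReal.ofReal (((k : ℝ) + n - 1) * (∏ j, a j) ^ (1 / (n : ℝ))) := by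
  have hn0 : (0 : ℝ) < n := by exact_mod_cast hn
  have hn1 : (1 : ℝ) ≤ n := by exact_mod_cast hn
  have hk1 : (1 : ℝ) ≤ k := by exact_mod_cast hk
  have hP : 0 < ∏ j, a j := Finset.prod_pos fun j _ => ha j
  set G : ℝ := (∏ j, a j) ^ (1 / (n : ℝ)) with hG
  have hG0 : 0 < G := Real.rpow_pos_of_pos hP _
  set T : ℝ := ((k : ℝ) + n - 1) * G with hT
  have hT0 : 0 < T := mul_pos (by linarith) hG0
  -- AM-GM
  have hamgm : (n : ℝ) / G ≤ ∑ j, 1 / a j := by
    have h1 := Real.geom_mean_le_arith_mean_weighted Finset.univ (fun _ : Fin n => (1 / n : ℝ))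
      (fun j => 1 / a j) (fun _ _ => by positivity) (by simp [hn0.ne'])
      (fun j _ => by have := ha j; positivity)
    rw [Real.finset_prod_rpow _ _ (fun j _ => by have := ha j; positivity), ← Finset.mul_sum] at h1
    have h2 : ∏ j, 1 / a j = (∏ j, a j)⁻¹ := by
      simp [one_div, Finset.prod_inv_distrib]
    rw [h2, Real.inv_rpow hP.le, ← hG] at h1
    calc (n : ℝ) / G = n * G⁻¹ := div_eq_mul_inv _ _
      _ ≤ n * (1 / n * ∑ j, 1 / a j) := by gcongr
      _ = ∑ j, 1 / a j := by field_simp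
  set x : Fin n → ℝ := fun j => T / (n * a j) with hx
  have hx0 : ∀ j, 0 ≤ x j := fun j => by have := ha j; positivity
  have hsum : (k : ℝ) + n - 1 ≤ ∑ j, x j := by
    have h1 : ∑ j, x j = T / n * ∑ j, 1 / a j := by
      rw [Finset.mul_sum]
      refine Finset.sum_congr rfl fun j _ => ?_
      have := (ha j).ne'
      simp only [hx]
      field_simp
    rw [h1]
    calc (k : ℝ) + n - 1 = T / n * (n / G) := by rw [hT]; field_simp
      _ ≤ T / n * ∑ j, 1 / a j := by gcongr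
  have hfl : k ≤ ∑ j, ⌊x j⌋₊ := by
    have h1 : ∑ j, x j < ∑ j, ((⌊x j⌋₊ : ℝ) + 1) := by
      refine Finset.sum_lt_sum_of_nonempty ⟨⟨0, hn⟩, Finset.mem_univ _⟩ fun j _ => ?_
      exact Nat.lt_floor_add_one _
    rw [Finset.sum_add_distrib] at h1
    simp only [Finset.sum_const, Finset.card_univ, Fintype.card_fin, nsmul_eq_mul, mul_one] at h1
    have h2 : (k : ℝ) - 1 < ((∑ j, ⌊x j⌋₊ : ℕ) : ℝ) := by
      push_cast
      linarith
    have h3 : (k : ℝ) < ((∑ j, ⌊x j⌋₊ + 1 : ℕ) : ℝ) := by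
      push_cast at h2 ⊢
      linarith
    have h4 : k < ∑ j, ⌊x j⌋₊ + 1 := by exact_mod_cast h3
    omega
  obtain ⟨v, hv, hvs⟩ := exists_le_sum Finset.univ (fun j => ⌊x j⌋₊) k hfl
  refine cap_le hc hk v hvs hT0 fun w hw hw0 => ?_
  calc ∑ j, (v j : ℝ) * w j ≤ ∑ j, x j * w j := by
        refine Finset.sum_le_sum fun j _ => mul_le_mul_of_nonneg_right ?_ (hw0 j)
        calc (v j : ℝ) ≤ (⌊x j⌋₊ : ℝ) := by exact_mod_cast hv j
          _ ≤ x j := Nat.floor_le (hx0 j)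
    _ = T / n * ∑ j, w j / a j := by
        rw [Finset.mul_sum]
        refine Finset.sum_congr rfl fun j _ => ?_
        have := (ha j).ne'
        simp only [hx]
        field_simp
    _ ≤ T / n * n := by
        have := h w hw
        gcongr
    _ = T := by field_simp

/-- the bound from one coordinate -/
theorem cap_le_coord {k : ℕ} {c : Set (Fin n → ℂ) → ℝ≥0∞} (hc : IsKCapacity k c) (hk : 1 ≤ k)
    {Ω : Set (Fin n → ℝ)} (j : Fin n) {M : ℝ} (hM : 0 < M) (h : ∀ w ∈ Ω, w j ≤ M) :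
    c (toric Ω) ≤ ENNReal.ofReal (k * M) := by
  have hk1 : (0 : ℝ) < k := by exact_mod_cast hk
  refine cap_le hc hk (fun i => if i = j then k else 0) (by simp) (by positivity)
    fun w hw _ => ?_
  have : ∑ i, (((if i = j then k else 0 : ℕ) : ℝ)) * w i = k * w j := by
    rw [Finset.sum_eq_single j]
    · simp
    · intro i _ hi; simp [hi]
    · intro hj; exact absurd (Finset.mem_univ j) hj
  rw [this]
  have := h w hw
  gcongr

/-- the bound from a cube which is not contained in `Ω` -/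
theorem cap_le_cube {k : ℕ} {c : Set (Fin n → ℂ) → ℝ≥0∞} (hc : IsKCapacity k c) (hn : 1 ≤ n)
    (hk : n ≤ k) {Ω : Set (Fin n → ℝ)} (hΩ : IsConvexProfile Ω) (hne : Ω.Nonempty) {s M : ℝ}
    (hs : 0 < s) (hM : 0 ≤ M) (hsΩ : (fun _ => s) ∉ Ω) (h : ∀ w ∈ Ω, ∀ j, w j ≤ M) :
    c (toric Ω) ≤ ENNReal.ofReal (((k : ℝ) - n + 1) * s + (n - 1) * M) := by
  classical
  have hn1 : (1 : ℝ) ≤ n := by exact_mod_cast hn
  have hk1 : (n : ℝ) ≤ k := by exact_mod_cast hk
  set C : Set (Fin n → ℝ) := {x : Fin n → ℝ | (fun j => |x j|) ∈ Ω} with hC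
  have hsC : (fun _ => s : Fin n → ℝ) ∉ C := by
    intro h1
    have h2 : (fun j => |(fun _ => s : Fin n → ℝ) j|) ∈ Ω := h1
    simp only [abs_of_pos hs] at h2
    exact hsΩ h2
  obtain ⟨f, u, hfu, huf⟩ := geometric_hahn_banach_closed_point hΩ.2.2 hΩ.2.1.isClosed hsC
  set q : Fin n → ℝ := fun j => f (Pi.single j 1) with hq
  have hf : ∀ x : Fin n → ℝ, f x = ∑ j, x j * q j := by
    intro x
    have h1 : x = ∑ j, x j • (Pi.single j (1 : ℝ) : Fin n → ℝ) := by
      funext i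
      simp [Finset.sum_apply, Pi.single_apply]
    conv_lhs => rw [h1]
    rw [map_sum]
    refine Finset.sum_congr rfl fun j _ => ?_
    rw [map_smul, smul_eq_mul]
  set Q : ℝ := ∑ j, |q j| with hQ
  have h1 : ∀ w ∈ Ω, ∑ j, |q j| * w j < s * Q := by
    intro w hw
    have h2 : (fun j => (if 0 ≤ q j then w j else -w j)) ∈ C := by
      show (fun j => |(if 0 ≤ q j then w j else -w j)|) ∈ Ω
      have : (fun j => |(if 0 ≤ q j then w j else -w j)|) = w := by
        funext j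
        have := hΩ.1 w hw j
        split_ifs
        · exact abs_of_nonneg this
        · rw [abs_neg]; exact abs_of_nonneg this
      rw [this]; exact hw
    have h3 := hfu _ h2
    rw [hf] at h3
    have h4 : ∑ j, (if 0 ≤ q j then w j else -w j) * q j = ∑ j, |q j| * w j := by
      refine Finset.sum_congr rfl fun j _ => ?_
      split_ifs with h5
      · rw [abs_of_nonneg h5]; ring
      · rw [abs_of_neg (not_le.1 h5)]; ring
    rw [h4] at h3
    have h5 : f (fun _ => s) ≤ s * Q := by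
      rw [hf, hQ, Finset.mul_sum]
      refine Finset.sum_le_sum fun j _ => ?_
      exact mul_le_mul_of_nonneg_left (le_abs_self _) hs.le
    linarith
  have hQ0 : 0 < Q := by
    obtain ⟨w, hw⟩ := hne
    have h2 := h1 w hw
    have h3 : 0 ≤ ∑ j, |q j| * w j :=
      Finset.sum_nonneg fun j _ => mul_nonneg (abs_nonneg _) (hΩ.1 w hw j)
    by_contra hcon
    have : s * Q ≤ 0 := mul_nonpos_of_nonneg_of_nonpos hs.le (not_lt.1 hcon)
    linarith
  set m : ℝ := (k : ℝ) - n + 1 with hm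
  have hm0 : 0 < m := by linarith
  set x : Fin n → ℝ := fun j => m * (|q j| / Q) with hx
  have hx0 : ∀ j, 0 ≤ x j := fun j => by positivity
  have hxs : ∑ j, x j = m := by
    simp only [hx]
    rw [← Finset.mul_sum, ← Finset.sum_div, ← hQ, div_self hQ0.ne', mul_one]
  have hceil : ∑ j, ⌈x j⌉₊ ≤ k := by
    have h2 : ∑ j, (⌈x j⌉₊ : ℝ) < ∑ j, (x j + 1) := by
      refine Finset.sum_lt_sum_of_nonempty ⟨⟨0, hn⟩, Finset.mem_univ _⟩ fun j _ => ?_
      exact Nat.ceil_lt_add_one (hx0 j)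
    rw [Finset.sum_add_distrib, hxs] at h2
    simp only [Finset.sum_const, Finset.card_univ, Fintype.card_fin, nsmul_eq_mul, mul_one] at h2
    have h3 : ((∑ j, ⌈x j⌉₊ : ℕ) : ℝ) < ((k + 1 : ℕ) : ℝ) := by
      push_cast
      linarith
    have h4 : ∑ j, ⌈x j⌉₊ < k + 1 := by exact_mod_cast h3
    omega
  set j0 : Fin n := ⟨0, hn⟩ with hj0
  set v : Fin n → ℕ := fun j => ⌈x j⌉₊ + if j = j0 then k - ∑ i, ⌈x i⌉₊ else 0 with hv
  have hvs : ∑ j, v j = k := by
    simp only [hv]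
    rw [Finset.sum_add_distrib]
    simp
    omega
  have hvx : ∀ j, x j ≤ v j := by
    intro j
    have h2 : x j ≤ (⌈x j⌉₊ : ℝ) := Nat.le_ceil _
    have h3 : (⌈x j⌉₊ : ℝ) ≤ v j := by
      have : ⌈x j⌉₊ ≤ v j := by simp only [hv]; omega
      exact_mod_cast this
    linarith
  refine cap_le hc (hn.trans hk) v hvs (by nlinarith [mul_pos hm0 hs, mul_nonneg (sub_nonneg.2 hn1) hM]) fun w hw hw0 => ?_
  have h2 : ∑ j, x j * w j ≤ m * s := by
    have h3 : ∑ j, x j * w j = m / Q * ∑ j, |q j| * w j := by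
      rw [Finset.mul_sum]
      refine Finset.sum_congr rfl fun j _ => ?_
      simp only [hx]
      ring
    rw [h3]
    calc m / Q * ∑ j, |q j| * w j ≤ m / Q * (s * Q) := by
          have := (h1 w hw).le
          gcongr
      _ = m * s := by field_simp
  have h3 : ∑ j, ((v j : ℝ) - x j) * w j ≤ ∑ j, ((v j : ℝ) - x j) * M :=
    Finset.sum_le_sum fun j _ => mul_le_mul_of_nonneg_left (h w hw j) (sub_nonneg.2 (hvx j))
  have h4 : ∑ j, ((v j : ℝ) - x j) * M = (n - 1) * M := by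
    rw [← Finset.sum_mul, Finset.sum_sub_distrib, hxs]
    have : ∑ j, (v j : ℝ) = k := by exact_mod_cast hvs
    rw [this, hm]
    ring
  have h5 : ∑ j, (v j : ℝ) * w j = ∑ j, x j * w j + ∑ j, ((v j : ℝ) - x j) * w j := by
    rw [← Finset.sum_add_distrib]
    exact Finset.sum_congr rfl fun j _ => by ring
  rw [h5]
  linarith

end Pool.Agent.Q194.KC
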