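import Mathlib

/-!
# Symplectic k-capacities and convex toric domains: definitions (MP_d1c05b_gt)

The space is `ℂ ^ n = Fin n → ℂ` with `z_j = x_j + i y_j` and `ω = ∑ dx_j ∧ dy_j`.
-/

set_option autoImplicit false

open MeasureTheory
open scoped ENNReal

namespace Pool.Agent.Q194.KC

variable {n : ℕ}

/-- The standard symplectic form `ω (u, v) = ∑ (Re u_j Im v_j - Im u_j Re v_j)` of `ℂ ^ n`. -/
def omega (u v : Fin n → ℂ) : ℝ := ∑ j, ((u j).re * (v j).im - (u j).im * (v j).re)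

/-- Symplectomorphisms of `ℂ ^ n`: smooth bijections with smooth inverse whose derivative
preserves `ω`. -/
def IsSymplectomorphism (ψ : (Fin n → ℂ) ≃ (Fin n → ℂ)) : Prop :=
  ContDiff ℝ (⊤ : ℕ∞) ψ ∧ ContDiff ℝ (⊤ : ℕ∞) ψ.symm ∧
    ∀ z u v, omega (fderiv ℝ ψ z u) (fderiv ℝ ψ z v) = omega u v

/-- `E (a) = {z | ∑ π |z_j| ^ 2 / a_j ≤ 1}`, `a_j ∈ (0, ∞]`. -/
def ellipsoid (a : Fin n → ℝ≥0∞) : Set (Fin n → ℂ) :=
  {z | ∑ j, ENNReal.ofReal (Real.pi * ‖z j‖ ^ 2) / a j ≤ 1}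

/-- The `k`-th smallest term, with multiplicity, of the multiset `{m a_j : m ≥ 1, a_j < ∞}`: the
least `t` such that at least `k` pairs `(m, j)` have `m a_j ≤ t`. -/
noncomputable def kthTerm (k : ℕ) (a : Fin n → ℝ≥0∞) : ℝ≥0∞ :=
  sInf {t : ℝ≥0∞ | (k : ℕ∞) ≤ {p : ℕ × Fin n | 1 ≤ p.1 ∧ a p.2 ≠ ∞ ∧ p.1 * a p.2 ≤ t}.encard}

/-- A symplectic `k`-capacity on `ℂ ^ n`: (i) monotonicity under symplectomorphisms of `ℂ ^ n`,
(ii) conformality, (iii) its values on the ellipsoids `E (a)` with some `a_j` finite. -/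
structure IsKCapacity (k : ℕ) (c : Set (Fin n → ℂ) → ℝ≥0∞) : Prop where
  mono : ∀ (U V : Set (Fin n → ℂ)) (ψ : (Fin n → ℂ) ≃ (Fin n → ℂ)), IsSymplectomorphism ψ →
    ψ '' U ⊆ V → c U ≤ c V
  conformal : ∀ (b : ℝ) (U : Set (Fin n → ℂ)),
    c ((fun z => b • z) '' U) = ENNReal.ofReal (b ^ 2) * c U
  ellipsoid : ∀ a : Fin n → ℝ≥0∞, (∀ j, a j ≠ 0) → (∃ j, a j ≠ ∞) → c (ellipsoid a) = kthTerm k a

/-- `X_Ω = {z | (π |z_1| ^ 2, …, π |z_n| ^ 2) ∈ Ω}`. -/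
def toric (Ω : Set (Fin n → ℝ)) : Set (Fin n → ℂ) := {z | (fun j => Real.pi * ‖z j‖ ^ 2) ∈ Ω}

/-- `Ω` is a subset of `[0, ∞) ^ n` and the set of the `x ∈ ℝ ^ n` with
`(|x_1|, …, |x_n|) ∈ Ω` is compact and convex. -/
def IsConvexProfile (Ω : Set (Fin n → ℝ)) : Prop :=
  (∀ x ∈ Ω, ∀ j, 0 ≤ x j) ∧ IsCompact {x : Fin n → ℝ | (fun j => |x j|) ∈ Ω} ∧
    Convex ℝ {x : Fin n → ℝ | (fun j => |x j|) ∈ Ω}

/-- A toric domain: the closure of a nonempty open set which is invariant under the rotations of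
the coordinates. -/
def IsToricDomain (X : Set (Fin n → ℂ)) : Prop :=
  ∃ U : Set (Fin n → ℂ), IsOpen U ∧ U.Nonempty ∧
    (∀ θ : Fin n → ℂ, (∀ j, ‖θ j‖ = 1) → ∀ z ∈ U, (fun j => θ j * z j) ∈ U) ∧ X = closure U

/-- A convex toric domain. -/
def IsConvexToricDomain (X : Set (Fin n → ℂ)) : Prop :=
  IsToricDomain X ∧ ∃ Ω, IsConvexProfile Ω ∧ X = toric Ω

/-- `vol (B) = ∫_B ω ^ n`, that is `n!` times the Lebesgue measure of `ℝ ^ (2 n)`. -/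
noncomputable def vol (B : Set (Fin n → ℂ)) : ℝ≥0∞ := n.factorial * volume B

/-- The capacity ratio `c (B) / vol (B) ^ (1 / n)`. -/
noncomputable def ratio (c : Set (Fin n → ℂ) → ℝ≥0∞) (B : Set (Fin n → ℂ)) : ℝ≥0∞ :=
  c B / vol B ^ (1 / (n : ℝ))

/-- The polydisk `P_{2n}`, the product of `n` closed discs of area `1`. -/
def polydisk (n : ℕ) : Set (Fin n → ℂ) := {z | ∀ j, Real.pi * ‖z j‖ ^ 2 ≤ 1}

end Pool.Agent.Q194.KC
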