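import Pool.Agent.Q194.KC.Cube

/-! The sharp bound for large `k`. -/

set_option autoImplicit false

open MeasureTheory
open scoped ENNReal

namespace Pool.Agent.Q194.KC

variable {n : ℕ}

theorem pow_le_aux (n : ℕ) (y : ℝ) (hy : 0 ≤ y) (h : n * y ≤ 1 / 2) :
    (1 + y) ^ n ≤ 1 + 2 * n * y := by
  rcases Nat.eq_zero_or_pos n with rfl | hn
  · simp
  have hn1 : (1 : ℝ) ≤ n := by exact_mod_cast hn
  have hy1 : y ≤ 1 / 2 := by nlinarith
  have h1 : 1 - n * y ≤ (1 - y) ^ n := by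
    have := one_add_mul_le_pow (a := -y) (by linarith) n
    calc 1 - n * y = 1 + n * -y := by ring
      _ ≤ (1 + -y) ^ n := this
      _ = (1 - y) ^ n := by ring
  have h2 : (1 + y) ^ n * (1 - n * y) ≤ 1 := by
    calc (1 + y) ^ n * (1 - n * y) ≤ (1 + y) ^ n * (1 - y) ^ n := by gcongr
      _ = (1 - y ^ 2) ^ n := by rw [← mul_pow]; ring
      _ ≤ 1 := pow_le_one₀ (by nlinarith) (by nlinarith)
  have h3 : 0 < 1 - n * y := by linarith
  have h4 : (1 + y) ^ n ≤ 1 / (1 - n * y) := by rwa [le_div_iff₀ h3]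
  refine h4.trans ?_
  rw [div_le_iff₀ h3]
  have h5 : 0 ≤ n * y := by positivity
  nlinarith

theorem ofReal_le_of_forall {x : ℝ≥0∞} {y a : ℝ} (ha : 0 ≤ a)
    (h : ∀ ε : ℝ, 0 < ε → x ≤ ENNReal.ofReal (y + a * ε)) : x ≤ ENNReal.ofReal y := by
  refine ENNReal.le_of_forall_pos_le_add fun ε hε _ => ?_
  have hε' : (0 : ℝ) < ε := by exact_mod_cast hε
  have h1 := h (ε / (a + 1)) (by positivity)
  refine h1.trans ?_
  calc ENNReal.ofReal (y + a * (ε / (a + 1))) ≤ ENNReal.ofReal (y + ε) := by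
        refine ENNReal.ofReal_le_ofReal ?_
        have : a * (ε / (a + 1)) ≤ ε := by
          rw [mul_div_assoc', div_le_iff₀ (by positivity)]
          nlinarith
        linarith
    _ ≤ ENNReal.ofReal y + ENNReal.ofReal ε := ENNReal.ofReal_add_le
    _ = ENNReal.ofReal y + ε := by rw [ENNReal.ofReal_coe_nnreal]

/-- an upper bound for the coordinates -/
theorem exists_bound {Ω : Set (Fin n → ℝ)} (hΩ : IsConvexProfile Ω) :
    ∃ M : ℝ, 0 < M ∧ ∀ w ∈ Ω, ∀ j, w j ≤ M := by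
  rcases Ω.eq_empty_or_nonempty with h | h
  · exact ⟨1, one_pos, fun w hw => by simp [h] at hw⟩
  · obtain ⟨a, ha, hmax⟩ := (profile_isCompact hΩ).exists_isMaxOn h
      (f := fun w : Fin n → ℝ => ∑ j, w j) (by fun_prop)
    refine ⟨∑ j, a j + 1, by
      have : 0 ≤ ∑ j, a j := Finset.sum_nonneg fun j _ => hΩ.1 a ha j
      linarith, fun w hw j => ?_⟩
    have h1 : w j ≤ ∑ i, w i :=
      Finset.single_le_sum (fun i _ => hΩ.1 w hw i) (Finset.mem_univ j)
    have h2 : ∑ i, w i ≤ ∑ i, a i := hmax hw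
    linarith

theorem volume_ne_top {Ω : Set (Fin n → ℝ)} (hΩ : IsConvexProfile Ω) :
    volume (toric Ω) ≠ ∞ := by
  obtain ⟨M, hM, h⟩ := exists_bound hΩ
  have h1 : toric Ω ⊆ box (fun _ => M) := fun z hz j => h _ hz j
  have h2 := measure_mono (μ := volume) h1
  rw [volume_box _ (fun _ => hM.le)] at h2
  exact ne_top_of_le_ne_top ENNReal.ofReal_ne_top h2

theorem real_volume_ge {Ω : Set (Fin n → ℝ)} (hΩ : IsConvexProfile Ω) {a w : Fin n → ℝ}
    (ha : a ∈ Ω) (hw : w ∈ Ω) (ha0 : ∀ j, 0 < a j) (j : Fin n) {δ : ℝ} (hδ : 0 ≤ δ)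
    (h : a j * (1 + δ) ≤ w j) :
    (∏ i, a i) * (1 + δ / (3 * n)) ≤ (volume (toric Ω)).toReal :=
  (ENNReal.ofReal_le_iff_le_toReal (volume_ne_top hΩ)).1 (volume_ge hΩ ha hw ha0 j hδ h)

theorem real_volume_ge' {Ω : Set (Fin n → ℝ)} (hΩ : IsConvexProfile Ω) {a : Fin n → ℝ}
    (ha : a ∈ Ω) : ∏ i, a i ≤ (volume (toric Ω)).toReal := by
  refine (ENNReal.ofReal_le_iff_le_toReal (volume_ne_top hΩ)).1 ?_
  rw [← volume_box a (hΩ.1 a ha)]
  exact measure_mono (box_subset hΩ ha)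

/-- the coordinates are bounded in terms of the volume -/
theorem coord_le {Ω : Set (Fin n → ℝ)} (hΩ : IsConvexProfile Ω) {a : Fin n → ℝ}
    (ha : a ∈ Ω) (ha0 : ∀ j, 0 < a j) {x : ℝ} (hx : 0 ≤ x)
    (hV : (volume (toric Ω)).toReal ≤ (∏ i, a i) * (1 + x)) {w : Fin n → ℝ} (hw : w ∈ Ω)
    (j : Fin n) : w j ≤ a j * (1 + 3 * n * x) := by
  have hn0 : (0 : ℝ) < n := by
    have := j.2
    exact_mod_cast (by omega : 0 < n)
  by_contra hcon
  push Not at hcon
  have haj := ha0 j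
  have h1 : 3 * n * x < w j / a j - 1 := by
    rw [lt_sub_iff_add_lt, lt_div_iff₀ haj]
    linarith
  have h0 : 0 ≤ 3 * n * x := by positivity
  have h2 := real_volume_ge hΩ ha hw ha0 j (δ := w j / a j - 1) (by linarith)
    (by rw [add_sub_cancel, mul_div_cancel₀ _ haj.ne'])
  have hP : 0 < ∏ i, a i := Finset.prod_pos fun i _ => ha0 i
  have h3 : (∏ i, a i) * (1 + (w j / a j - 1) / (3 * n)) ≤ (∏ i, a i) * (1 + x) := h2.trans hV
  have h4 := le_of_mul_le_mul_left h3 hP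
  have h5 : (w j / a j - 1) / (3 * n) ≤ x := by linarith
  rw [div_le_iff₀ (by positivity)] at h5
  linarith

/-- The bound for large `k`, strict except for cubes. -/
theorem large {k : ℕ} {c : Set (Fin n → ℂ) → ℝ≥0∞} (hc : IsKCapacity k c) (hn : 1 ≤ n)
    (hk : 12 * n ^ 4 ≤ k) {Ω : Set (Fin n → ℝ)} (hΩ : IsConvexProfile Ω)
    (hX : IsToricDomain (toric Ω)) :
    (∃ t : ℝ, 0 < t ∧ toric Ω = box (fun _ => t)) ∨
      c (toric Ω) < ENNReal.ofReal (k * (volume (toric Ω)).toReal ^ (1 / (n : ℝ))) := by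
  have hn1 : (1 : ℝ) ≤ n := by exact_mod_cast hn
  have hn0 : (0 : ℝ) < n := by linarith
  have hk' : 12 * (n : ℝ) ^ 4 ≤ k := by exact_mod_cast hk
  have hn4 : (1 : ℝ) ≤ (n : ℝ) ^ 4 := one_le_pow₀ hn1
  have hnn4 : (n : ℝ) ≤ (n : ℝ) ^ 4 := le_self_pow₀ hn1 (by norm_num)
  have hk0 : (0 : ℝ) < k := by linarith
  have hkn : n ≤ k := by
    have : (n : ℝ) ≤ k := by linarith
    exact_mod_cast this
  have hk1 : 1 ≤ k := hn.trans hkn
  obtain ⟨a, ha, ha0, hlag⟩ := exists_box hn hΩ hX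
  set V : ℝ := (volume (toric Ω)).toReal with hV
  set P : ℝ := ∏ j, a j with hP
  have hP0 : 0 < P := Finset.prod_pos fun j _ => ha0 j
  have hPV : P ≤ V := real_volume_ge' hΩ ha
  have hV0 : 0 < V := lt_of_lt_of_le hP0 hPV
  set g : ℝ := V ^ (1 / (n : ℝ)) with hg
  have hg0 : 0 < g := Real.rpow_pos_of_pos hV0 _
  have hgn : g ^ n = V := by
    rw [hg, ← Real.rpow_natCast, ← Real.rpow_mul hV0.le, one_div, inv_mul_cancel₀ hn0.ne',
      Real.rpow_one]
  set G : ℝ := P ^ (1 / (n : ℝ)) with hG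
  have hG0 : 0 < G := Real.rpow_pos_of_pos hP0 _
  have hGn : G ^ n = P := by
    rw [hG, ← Real.rpow_natCast, ← Real.rpow_mul hP0.le, one_div, inv_mul_cancel₀ hn0.ne',
      Real.rpow_one]
  have hkg : 0 < k * g := by positivity
  rcases lt_or_ge (((k : ℝ) + n - 1) * G) (k * g) with hA | hA
  · right
    refine lt_of_le_of_lt (cap_le_box hc hn hk1 hΩ ha0 hlag) ?_
    exact (ENNReal.ofReal_lt_ofReal_iff hkg).2 hA
  -- case B
  set y : ℝ := ((n : ℝ) - 1) / k with hy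
  have hy0 : 0 ≤ y := by positivity
  have hny3 : 12 * (n : ℝ) ^ 3 * y ≤ 1 := by
    rw [hy, mul_div_assoc', div_le_one hk0]
    nlinarith [pow_pos hn0 3]
  have hn3 : (1 : ℝ) ≤ (n : ℝ) ^ 3 := one_le_pow₀ hn1
  have hn2 : (n : ℝ) ≤ (n : ℝ) ^ 3 := le_self_pow₀ hn1 (by norm_num)
  have hny : n * y ≤ 1 / 2 := by nlinarith
  have hgG : g ≤ (1 + y) * G := by
    have h1 : (1 + y) * G = ((k : ℝ) + n - 1) * G / k := by rw [hy]; field_simp; ring
    rw [h1, le_div_iff₀ hk0]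
    linarith
  have hVP : V ≤ P * (1 + 2 * n * y) := by
    calc V = g ^ n := hgn.symm
      _ ≤ ((1 + y) * G) ^ n := by gcongr
      _ = P * (1 + y) ^ n := by rw [mul_pow, hGn]; ring
      _ ≤ P * (1 + 2 * n * y) := by
          have := pow_le_aux n y hy0 hny
          gcongr
  set δ : ℝ := 3 * n * (2 * n * y) with hδ
  have hδ0 : 0 ≤ δ := by positivity
  have hnδ : n * δ ≤ 1 / 2 := by
    have : n * δ = 6 * (n : ℝ) ^ 3 * y := by rw [hδ]; ring
    rw [this]; linarith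
  have hM : ∀ w ∈ Ω, ∀ j, w j ≤ a j * (1 + δ) := fun w hw j =>
    coord_le hΩ ha ha0 (by positivity) hVP hw j
  by_cases hB : ∃ j, a j * (1 + δ) < g
  · right
    obtain ⟨j, hj⟩ := hB
    have h1 : 0 < a j * (1 + δ) := by have := ha0 j; positivity
    refine lt_of_le_of_lt (cap_le_coord hc hk1 j h1 fun w hw => hM w hw j) ?_
    exact (ENNReal.ofReal_lt_ofReal_iff hkg).2 (by gcongr)
  push Not at hB
  -- the largest cube
  set S : Set ℝ := {s : ℝ | (fun _ => s : Fin n → ℝ) ∈ Ω} with hS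
  have hSclosed : IsClosed S := (profile_isCompact hΩ).isClosed.preimage (by fun_prop)
  set s0 : ℝ := g / (1 + δ) with hs0
  have hs00 : 0 < s0 := by positivity
  have hs0S : s0 ∈ S := by
    refine profile_down hΩ ha (fun j => hs00.le) fun j => ?_
    rw [hs0, div_le_iff₀ (by linarith)]
    exact hB j
  have hSb : BddAbove S := by
    obtain ⟨M, hM, h⟩ := exists_bound hΩ
    exact ⟨M, fun s hs => h _ hs ⟨0, hn⟩⟩
  set t : ℝ := sSup S with ht
  have htS : (fun _ => t : Fin n → ℝ) ∈ Ω := hSclosed.csSup_mem ⟨s0, hs0S⟩ hSb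
  have hts0 : s0 ≤ t := le_csSup hSb hs0S
  have ht0 : 0 < t := lt_of_lt_of_le hs00 hts0
  have htV : t ^ n ≤ V := by
    have := real_volume_ge' hΩ htS
    simpa using this
  have htg : t ≤ g := by
    rw [← hgn] at htV
    exact le_of_pow_le_pow_left₀ (by omega) hg0.le htV
  set r : ℝ := g / t with hr
  have hr1 : 1 ≤ r := by rw [hr, one_le_div ht0]; exact htg
  have hrδ : r ≤ 1 + δ := by
    rw [hr, div_le_iff₀ ht0]
    have : s0 * (1 + δ) = g := by rw [hs0]; field_simp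
    nlinarith
  have hrn : r ^ n ≤ 1 + 2 * n * (r - 1) := by
    have h1 := pow_le_aux n (r - 1) (by linarith) (by nlinarith)
    rwa [add_sub_cancel] at h1
  have hrn1 : 1 ≤ r ^ n := one_le_pow₀ hr1
  have hVt : V = (∏ _j : Fin n, t) * (1 + (r ^ n - 1)) := by
    rw [Finset.prod_const, Finset.card_univ, Fintype.card_fin, add_sub_cancel, hr, div_pow,
      mul_div_cancel₀ _ (pow_pos ht0 n).ne', hgn]
  have hM2 : ∀ w ∈ Ω, ∀ j, w j ≤ t * (1 + 3 * n * (r ^ n - 1)) := fun w hw j =>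
    coord_le hΩ htS (fun _ => ht0) (by linarith) hVt.le hw j
  rcases eq_or_lt_of_le hr1 with hr' | hr'
  · left
    refine ⟨t, ht0, Set.Subset.antisymm (fun z hz j => ?_) (box_subset hΩ htS)⟩
    have h1 := hM2 _ hz j
    rw [← hr', one_pow, sub_self, mul_zero, add_zero, mul_one] at h1
    exact h1
  · right
    have hbound : c (toric Ω) ≤
        ENNReal.ofReal (((k : ℝ) - n + 1) * t + (n - 1) * (t * (1 + 3 * n * (r ^ n - 1)))) := by
      refine ofReal_le_of_forall (a := (k : ℝ) - n + 1) (by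
        have : (n : ℝ) ≤ k := by exact_mod_cast hkn
        linarith) fun ε hε => ?_
      have h1 := cap_le_cube hc hn hkn hΩ ⟨a, ha⟩ (s := t + ε)
        (M := t * (1 + 3 * n * (r ^ n - 1))) (by linarith) (by
          have : 0 ≤ r ^ n - 1 := by linarith
          positivity) (fun h => by
          have : t + ε ≤ t := le_csSup hSb h
          linarith) hM2
      refine h1.trans (le_of_eq ?_)
      congr 1
      ring
    refine lt_of_le_of_lt hbound ((ENNReal.ofReal_lt_ofReal_iff hkg).2 ?_)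
    have h1 : ((k : ℝ) - n + 1) * t + (n - 1) * (t * (1 + 3 * n * (r ^ n - 1))) =
        t * (k + 3 * n * (n - 1) * (r ^ n - 1)) := by ring
    have h2 : k * g = t * (k * r) := by rw [hr]; field_simp
    rw [h1, h2]
    refine mul_lt_mul_of_pos_left ?_ ht0
    have h3 : 3 * (n : ℝ) * (n - 1) * (r ^ n - 1) ≤ 3 * n * (n - 1) * (2 * n * (r - 1)) := by
      have : (0 : ℝ) ≤ n - 1 := by linarith
      gcongr
      linarith
    have h4 : 3 * (n : ℝ) * (n - 1) * (2 * n * (r - 1)) < k * (r - 1) := by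
      have h5 : 3 * (n : ℝ) * (n - 1) * (2 * n) < k := by
        have h6 : (n : ℝ) ^ 3 ≤ (n : ℝ) ^ 4 := pow_le_pow_right₀ hn1 (by norm_num)
        have h8 : 3 * (n : ℝ) * (n - 1) * (2 * n) = 6 * (n : ℝ) ^ 3 - 6 * (n : ℝ) ^ 2 := by ring
        have h9 : 0 < (n : ℝ) ^ 2 := by positivity
        linarith
      have h7 : 0 < r - 1 := by linarith
      calc 3 * (n : ℝ) * (n - 1) * (2 * n * (r - 1)) = 3 * (n : ℝ) * (n - 1) * (2 * n) * (r - 1) := by
            ring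
        _ < k * (r - 1) := by gcongr
    linarith

end Pool.Agent.Q194.KC
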