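import Pool.Agent.Q194.KC.Large

/-! From the bounds for the capacities to the capacity ratios. -/

set_option autoImplicit false

open MeasureTheory
open scoped ENNReal

namespace Pool.Agent.Q194.KC

variable {n : ℕ}

/-- `(n!) ^ (1 / n)` -/
noncomputable def fn (n : ℕ) : ℝ := (n.factorial : ℝ) ^ (1 / (n : ℝ))

theorem fn_pos (n : ℕ) : 0 < fn n :=
  Real.rpow_pos_of_pos (by exact_mod_cast n.factorial_pos) _

theorem volume_pos {Ω : Set (Fin n → ℝ)} (hΩ : IsConvexProfile Ω)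
    (hX : IsToricDomain (toric Ω)) : 0 < (volume (toric Ω)).toReal := by
  obtain ⟨w, hw, hpos⟩ := exists_pos hX
  exact lt_of_lt_of_le (Finset.prod_pos fun j _ => hpos j) (real_volume_ge' hΩ hw)

theorem vol_rpow {Ω : Set (Fin n → ℝ)} (hΩ : IsConvexProfile Ω)
    (hX : IsToricDomain (toric Ω)) : vol (toric Ω) ^ (1 / (n : ℝ)) =
      ENNReal.ofReal (fn n * (volume (toric Ω)).toReal ^ (1 / (n : ℝ))) := by
  have hV := volume_pos hΩ hX
  have hf : (0 : ℝ) < n.factorial := by exact_mod_cast n.factorial_pos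
  have h1 : vol (toric Ω) = ENNReal.ofReal (n.factorial * (volume (toric Ω)).toReal) := by
    rw [vol, ENNReal.ofReal_mul hf.le, ENNReal.ofReal_natCast,
      ENNReal.ofReal_toReal (volume_ne_top hΩ)]
  rw [h1, ENNReal.ofReal_rpow_of_pos (mul_pos hf hV), Real.mul_rpow hf.le hV.le]
  rfl

theorem ratio_le {c : Set (Fin n → ℂ) → ℝ≥0∞} {Ω : Set (Fin n → ℝ)} (hΩ : IsConvexProfile Ω)
    (hX : IsToricDomain (toric Ω)) {K : ℝ}
    (h : c (toric Ω) ≤ ENNReal.ofReal (K * (volume (toric Ω)).toReal ^ (1 / (n : ℝ)))) :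
    ratio c (toric Ω) ≤ ENNReal.ofReal (K / fn n) := by
  have hg : 0 < (volume (toric Ω)).toReal ^ (1 / (n : ℝ)) :=
    Real.rpow_pos_of_pos (volume_pos hΩ hX) _
  have hf := fn_pos n
  rw [ratio, vol_rpow hΩ hX]
  calc c (toric Ω) / ENNReal.ofReal (fn n * (volume (toric Ω)).toReal ^ (1 / (n : ℝ)))
      ≤ ENNReal.ofReal (K * (volume (toric Ω)).toReal ^ (1 / (n : ℝ))) /
        ENNReal.ofReal (fn n * (volume (toric Ω)).toReal ^ (1 / (n : ℝ))) := by gcongr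
    _ = ENNReal.ofReal (K / fn n) := by
      rw [← ENNReal.ofReal_div_of_pos (mul_pos hf hg)]
      congr 1
      field_simp

theorem ratio_lt {c : Set (Fin n → ℂ) → ℝ≥0∞} {Ω : Set (Fin n → ℝ)} (hΩ : IsConvexProfile Ω)
    (hX : IsToricDomain (toric Ω)) {K : ℝ}
    (h : c (toric Ω) < ENNReal.ofReal (K * (volume (toric Ω)).toReal ^ (1 / (n : ℝ)))) :
    ratio c (toric Ω) < ENNReal.ofReal (K / fn n) := by
  have hg : 0 < (volume (toric Ω)).toReal ^ (1 / (n : ℝ)) :=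
    Real.rpow_pos_of_pos (volume_pos hΩ hX) _
  have hf := fn_pos n
  rw [ratio, vol_rpow hΩ hX]
  refine ENNReal.div_lt_of_lt_mul' ?_
  rw [← ENNReal.ofReal_mul (mul_pos hf hg).le]
  refine lt_of_lt_of_le h (le_of_eq ?_)
  congr 1
  field_simp

theorem box_eq_image (t : ℝ) (ht : 0 < t) :
    box (fun _ : Fin n => t) = (fun z : Fin n → ℂ => Real.sqrt t • z) '' polydisk n := by
  have hs : 0 < Real.sqrt t := Real.sqrt_pos.2 ht
  have hsq : Real.sqrt t ^ 2 = t := Real.sq_sqrt ht.le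
  ext z
  constructor
  · intro hz
    refine ⟨(Real.sqrt t)⁻¹ • z, fun j => ?_, ?_⟩
    · have h1 := hz j
      simp only [Pi.smul_apply, norm_smul, norm_inv, Real.norm_eq_abs, abs_of_pos hs, mul_pow,
        inv_pow, hsq]
      calc Real.pi * (t⁻¹ * ‖z j‖ ^ 2) = t⁻¹ * (Real.pi * ‖z j‖ ^ 2) := by ring
        _ ≤ t⁻¹ * t := by gcongr
        _ = 1 := inv_mul_cancel₀ ht.ne'
    · simp only [smul_smul, mul_inv_cancel₀ hs.ne', one_smul]
  · rintro ⟨w, hw, rfl⟩ j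
    have h1 := hw j
    simp only [Pi.smul_apply, norm_smul, Real.norm_eq_abs, abs_of_pos hs, mul_pow, hsq]
    calc Real.pi * (t * ‖w j‖ ^ 2) = t * (Real.pi * ‖w j‖ ^ 2) := by ring
      _ ≤ t * 1 := by gcongr
      _ = t := mul_one t

theorem vol_polydisk (n : ℕ) : vol (polydisk n) = n.factorial := by
  have h : polydisk n = box (fun _ => 1) := rfl
  rw [vol, h, volume_box _ (fun _ => zero_le_one)]
  simp

theorem ratio_polydisk {k : ℕ} {c : Set (Fin n → ℂ) → ℝ≥0∞} (h : c (polydisk n) = k) :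
    ratio c (polydisk n) = ENNReal.ofReal (k / fn n) := by
  have hf : (0 : ℝ) < n.factorial := by exact_mod_cast n.factorial_pos
  rw [ratio, vol_polydisk, h, ENNReal.ofReal_div_of_pos (fn_pos n), ENNReal.ofReal_natCast]
  congr 1
  rw [fn, ← ENNReal.ofReal_rpow_of_pos hf, ENNReal.ofReal_natCast]

/-- (1): the bound for all `k` -/
theorem all_k {k : ℕ} {c : Set (Fin n → ℂ) → ℝ≥0∞} (hn : 1 ≤ n) (hk : 1 ≤ k)
    (hc : IsKCapacity k c) {X : Set (Fin n → ℂ)} (hX : IsConvexToricDomain X) :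
    ratio c X ≤ ENNReal.ofReal (((k : ℝ) + n - 1) / fn n) := by
  obtain ⟨hX, Ω, hΩ, rfl⟩ := hX
  obtain ⟨a, ha, ha0, hlag⟩ := exists_box hn hΩ hX
  refine ratio_le hΩ hX ((cap_le_box hc hn hk hΩ ha0 hlag).trans (ENNReal.ofReal_le_ofReal ?_))
  have hn1 : (1 : ℝ) ≤ n := by exact_mod_cast hn
  have hk1 : (1 : ℝ) ≤ k := by exact_mod_cast hk
  have h1 : (∏ j, a j) ^ (1 / (n : ℝ)) ≤ (volume (toric Ω)).toReal ^ (1 / (n : ℝ)) :=
    Real.rpow_le_rpow (Finset.prod_nonneg fun j _ => (ha0 j).le) (real_volume_ge' hΩ ha)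
      (by positivity)
  have h2 : (0 : ℝ) ≤ (k : ℝ) + n - 1 := by linarith
  gcongr

/-- (2): the sharp bound for large `k` -/
theorem large_k {k : ℕ} {c : Set (Fin n → ℂ) → ℝ≥0∞} (hn : 1 ≤ n) (hk : 12 * n ^ 4 ≤ k)
    (hc : IsKCapacity k c) {X : Set (Fin n → ℂ)} (hX : IsConvexToricDomain X) :
    ratio c X ≤ ENNReal.ofReal (k / fn n) ∧ (ratio c X = ENNReal.ofReal (k / fn n) →
      ∃ t : ℝ, 0 < t ∧ X = (fun z => t • z) '' polydisk n) := by
  obtain ⟨hX, Ω, hΩ, rfl⟩ := hX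
  have hn0 : (0 : ℝ) < n := by exact_mod_cast hn
  have hk1 : 1 ≤ k := by
    have : 1 ≤ n ^ 4 := Nat.one_le_pow _ _ hn
    omega
  rcases large hc hn hk hΩ hX with ⟨t, ht, h⟩ | h
  · refine ⟨ratio_le hΩ hX ?_, fun _ => ⟨Real.sqrt t, Real.sqrt_pos.2 ht, by
      rw [h]; exact box_eq_image t ht⟩⟩
    have h1 : (volume (toric Ω)).toReal ^ (1 / (n : ℝ)) = t := by
      rw [h, volume_box _ (fun _ => ht.le), Finset.prod_const, Finset.card_univ, Fintype.card_fin,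
        ENNReal.toReal_ofReal (by positivity), ← Real.rpow_natCast, ← Real.rpow_mul ht.le,
        mul_one_div_cancel hn0.ne', Real.rpow_one]
    rw [h1]
    refine cap_le_coord hc hk1 ⟨0, hn⟩ ht fun w hw => ?_
    have hw0 := hΩ.1 w hw
    have hz : (fun j => ((Real.sqrt (w j / Real.pi) : ℝ) : ℂ)) ∈ toric Ω := by
      show (fun j => Real.pi * ‖((Real.sqrt (w j / Real.pi) : ℝ) : ℂ)‖ ^ 2) ∈ Ω
      have : (fun j => Real.pi * ‖((Real.sqrt (w j / Real.pi) : ℝ) : ℂ)‖ ^ 2) = w := by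
        funext j
        rw [Complex.norm_real, Real.norm_eq_abs, sq_abs,
          Real.sq_sqrt (div_nonneg (hw0 j) Real.pi_pos.le), mul_div_cancel₀ _ Real.pi_pos.ne']
      rw [this]; exact hw
    rw [h] at hz
    have h2 := hz ⟨0, hn⟩
    rwa [Complex.norm_real, Real.norm_eq_abs, sq_abs,
      Real.sq_sqrt (div_nonneg (hw0 _) Real.pi_pos.le), mul_div_cancel₀ _ Real.pi_pos.ne'] at h2
  · have h2 := ratio_lt hΩ hX h
    exact ⟨h2.le, fun h3 => absurd h3 h2.ne⟩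

end Pool.Agent.Q194.KC
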