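import Pool.Agent.Q194.KC.Defs

/-! Convex profiles and volumes of toric domains. -/

set_option autoImplicit false

open MeasureTheory
open scoped ENNReal

namespace Pool.Agent.Q194.KC

variable {n : ℕ}

theorem profile_update {Ω : Set (Fin n → ℝ)} (hΩ : IsConvexProfile Ω) (x : Fin n → ℝ)
    (hx : (fun j => |x j|) ∈ Ω) (i : Fin n) (y : ℝ) (hy : |y| ≤ |x i|) :
    (fun j => |Function.update x i y j|) ∈ Ω := by
  have h1 : Function.update x i (-x i) ∈ {x : Fin n → ℝ | (fun j => |x j|) ∈ Ω} := by
    show (fun j => |Function.update x i (-x i) j|) ∈ Ω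
    have : (fun j => |Function.update x i (-x i) j|) = fun j => |x j| := by
      funext j
      rcases eq_or_ne j i with rfl | hj
      · simp
      · simp [hj]
    rw [this]; exact hx
  rcases eq_or_ne (x i) 0 with h0 | h0
  · have hy0 : y = 0 := by
      rw [h0, abs_zero] at hy
      exact abs_eq_zero.1 (le_antisymm hy (abs_nonneg _))
    have : Function.update x i y = x := by
      rw [hy0, ← h0]; exact Function.update_eq_self i x
    rw [this]; exact hx
  · have hl : |y / x i| ≤ 1 := by
      rw [abs_div]; exact div_le_one_of_le₀ hy (abs_nonneg _)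
    have hl' := abs_le.1 hl
    have hx' : x ∈ {x : Fin n → ℝ | (fun j => |x j|) ∈ Ω} := hx
    have h2 := hΩ.2.2 hx' h1 (show (0 : ℝ) ≤ (1 + y / x i) / 2 by linarith)
      (show (0 : ℝ) ≤ (1 - y / x i) / 2 by linarith) (by ring)
    have h3 : ((1 + y / x i) / 2) • x + ((1 - y / x i) / 2) • Function.update x i (-x i) =
        Function.update x i y := by
      funext j
      rcases eq_or_ne j i with rfl | hj
      · simp only [Pi.add_apply, Pi.smul_apply, smul_eq_mul, Function.update_self]
        field_simp
        ring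
      · simp only [Pi.add_apply, Pi.smul_apply, smul_eq_mul, Function.update_of_ne hj]
        ring
    rw [h3] at h2
    exact h2

/-- profiles are decreasing sets -/
theorem profile_down {Ω : Set (Fin n → ℝ)} (hΩ : IsConvexProfile Ω) {w w' : Fin n → ℝ}
    (hw : w ∈ Ω) (h0 : ∀ j, 0 ≤ w' j) (hle : ∀ j, w' j ≤ w j) : w' ∈ Ω := by
  classical
  have key : ∀ s : Finset (Fin n), (fun j => |(fun i => if i ∈ s then w' i else w i) j|) ∈ Ω := by
    intro s
    induction s using Finset.induction_on with
    | empty =>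
      have : (fun j => |(fun i => if i ∈ (∅ : Finset (Fin n)) then w' i else w i) j|) = w := by
        funext j
        simp [abs_of_nonneg (hΩ.1 w hw j)]
      rw [this]; exact hw
    | insert a s ha ih =>
      have h := profile_update hΩ _ ih a (w' a) (by
        simp only [ha, if_false]
        rw [abs_of_nonneg (h0 a), abs_of_nonneg (hΩ.1 w hw a)]
        exact hle a)
      have h2 : Function.update (fun i => if i ∈ s then w' i else w i) a (w' a) =
          fun i => if i ∈ insert a s then w' i else w i := by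
        funext j
        rcases eq_or_ne j a with rfl | hj
        · simp
        · simp [hj]
      rw [h2] at h
      exact h
  have h := key Finset.univ
  have h2 : (fun j => |(fun i => if i ∈ (Finset.univ : Finset (Fin n)) then w' i else w i) j|) =
      w' := by
    funext j
    simp [abs_of_nonneg (h0 j)]
  rw [h2] at h
  exact h

theorem profile_conv {Ω : Set (Fin n → ℝ)} (hΩ : IsConvexProfile Ω) {w w' : Fin n → ℝ}
    (hw : w ∈ Ω) (hw' : w' ∈ Ω) {s t : ℝ} (hs : 0 ≤ s) (ht : 0 ≤ t) (hst : s + t = 1) :
    (fun j => s * w j + t * w' j) ∈ Ω := by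
  have h1 : w ∈ {x : Fin n → ℝ | (fun j => |x j|) ∈ Ω} := by
    show (fun j => |w j|) ∈ Ω
    have : (fun j => |w j|) = w := funext fun j => abs_of_nonneg (hΩ.1 w hw j)
    rw [this]; exact hw
  have h2 : w' ∈ {x : Fin n → ℝ | (fun j => |x j|) ∈ Ω} := by
    show (fun j => |w' j|) ∈ Ω
    have : (fun j => |w' j|) = w' := funext fun j => abs_of_nonneg (hΩ.1 w' hw' j)
    rw [this]; exact hw'
  have h3 := hΩ.2.2 h1 h2 hs ht hst
  have h4 : (fun j => |(s • w + t • w') j|) = fun j => s * w j + t * w' j := by
    funext j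
    simp only [Pi.add_apply, Pi.smul_apply, smul_eq_mul]
    exact abs_of_nonneg (add_nonneg (mul_nonneg hs (hΩ.1 w hw j)) (mul_nonneg ht (hΩ.1 w' hw' j)))
  have h5 : (fun j => |(s • w + t • w') j|) ∈ Ω := h3
  rw [h4] at h5
  exact h5

theorem profile_isCompact {Ω : Set (Fin n → ℝ)} (hΩ : IsConvexProfile Ω) : IsCompact Ω := by
  have h : Ω = {x : Fin n → ℝ | (fun j => |x j|) ∈ Ω} ∩ {x | ∀ j, 0 ≤ x j} := by
    ext x
    constructor
    · intro hx
      refine ⟨?_, hΩ.1 x hx⟩
      show (fun j => |x j|) ∈ Ω
      have : (fun j => |x j|) = x := funext fun j => abs_of_nonneg (hΩ.1 x hx j)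
      rw [this]; exact hx
    · rintro ⟨h1, h2⟩
      have h3 : (fun j => |x j|) ∈ Ω := h1
      have : (fun j => |x j|) = x := funext fun j => abs_of_nonneg (h2 j)
      rw [this] at h3; exact h3
  rw [h]
  refine hΩ.2.1.inter_right ?_
  have : {x : Fin n → ℝ | ∀ j, 0 ≤ x j} = ⋂ j, {x | 0 ≤ x j} := by ext; simp
  rw [this]
  exact isClosed_iInter fun j => isClosed_le continuous_const (continuous_apply j)

/-- a point with positive coordinates -/
theorem exists_pos {Ω : Set (Fin n → ℝ)} (hX : IsToricDomain (toric Ω)) :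
    ∃ w ∈ Ω, ∀ j, 0 < w j := by
  classical
  obtain ⟨U, hU, ⟨z0, hz0⟩, -, hc⟩ := hX
  obtain ⟨ε, hε, hb⟩ := Metric.isOpen_iff.1 hU z0 hz0
  set z : Fin n → ℂ := fun j => if z0 j = 0 then ((ε / 2 : ℝ) : ℂ) else z0 j with hz
  have hzU : z ∈ U := by
    refine hb ?_
    rw [Metric.mem_ball, dist_pi_lt_iff hε]
    intro j
    rw [hz]
    by_cases h : z0 j = 0
    · simp only [h, if_true]
      rw [dist_zero_right, Complex.norm_real, Real.norm_eq_abs, abs_of_pos (by positivity)]
      linarith
    · simp [h, hε]
  have hzX : z ∈ toric Ω := by rw [hc]; exact subset_closure hzU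
  refine ⟨_, hzX, fun j => ?_⟩
  have : z j ≠ 0 := by
    rw [hz]
    by_cases h : z0 j = 0
    · simp [h, hε.ne']
    · simp [h]
  have := norm_pos_iff.2 this
  positivity

/-- the box with sides `b` -/
def box (b : Fin n → ℝ) : Set (Fin n → ℂ) := {z | ∀ j, Real.pi * ‖z j‖ ^ 2 ≤ b j}

theorem volume_box (b : Fin n → ℝ) (hb : ∀ j, 0 ≤ b j) :
    volume (box b) = ENNReal.ofReal (∏ j, b j) := by
  have h1 : box b = Set.univ.pi fun j => Metric.closedBall (0 : ℂ) (Real.sqrt (b j / Real.pi)) := by
    ext z
    simp only [box, Set.mem_setOf_eq, Set.mem_pi, Set.mem_univ, true_imp_iff,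
      mem_closedBall_zero_iff]
    refine forall_congr' fun j => ?_
    rw [Real.le_sqrt (norm_nonneg _) (div_nonneg (hb j) Real.pi_pos.le), le_div_iff₀ Real.pi_pos,
      mul_comm]
  rw [h1, volume_pi_pi, ENNReal.ofReal_prod_of_nonneg (fun j _ => hb j)]
  refine Finset.prod_congr rfl fun j _ => ?_
  rw [Complex.volume_closedBall, ← ENNReal.ofReal_pow (Real.sqrt_nonneg _),
    Real.sq_sqrt (div_nonneg (hb j) Real.pi_pos.le)]
  have : (NNReal.pi : ℝ≥0∞) = ENNReal.ofReal Real.pi := by
    rw [ENNReal.ofReal, Real.toNNReal_of_nonneg Real.pi_pos.le]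
    rfl
  rw [this, ← ENNReal.ofReal_mul (div_nonneg (hb j) Real.pi_pos.le),
    div_mul_cancel₀ _ Real.pi_pos.ne']

theorem box_subset {Ω : Set (Fin n → ℝ)} (hΩ : IsConvexProfile Ω) {a : Fin n → ℝ} (ha : a ∈ Ω) :
    box a ⊆ toric Ω := fun z hz => profile_down hΩ ha (fun j => by positivity) hz

theorem measurableSet_box (b : Fin n → ℝ) : MeasurableSet (box b) := by
  have : box b = ⋂ j, {z | Real.pi * ‖z j‖ ^ 2 ≤ b j} := by ext; simp [box]
  rw [this]
  refine (isClosed_iInter fun j => isClosed_le ?_ continuous_const).measurableSet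
  exact continuous_const.mul ((continuous_apply j).norm.pow 2)

theorem third (n : ℕ) (hn : 1 ≤ n) : (1 : ℝ) / 3 ≤ (1 - 1 / n) ^ (n - 1) := by
  obtain ⟨m, rfl⟩ : ∃ m, n = m + 1 := ⟨n - 1, by omega⟩
  rcases Nat.eq_zero_or_pos m with rfl | hm
  · norm_num
  · have hm' : (0 : ℝ) < m := by exact_mod_cast hm
    have h1 : (1 + 1 / (m : ℝ)) ^ m ≤ Real.exp 1 := by
      have h2 : 1 + 1 / (m : ℝ) ≤ Real.exp (1 / m) := by
        have := Real.add_one_le_exp (1 / (m : ℝ))
        linarith
      calc (1 + 1 / (m : ℝ)) ^ m ≤ Real.exp (1 / m) ^ m := by gcongr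
        _ = Real.exp 1 := by
          rw [← Real.exp_nat_mul]
          congr 1
          field_simp
    have h3 : Real.exp 1 < 3 := by
      have := Real.exp_one_lt_d9
      linarith
    have h4 : (1 - 1 / ((m + 1 : ℕ) : ℝ)) = (1 + 1 / (m : ℝ))⁻¹ := by
      push_cast
      field_simp
      ring
    rw [h4, inv_pow, Nat.add_sub_cancel, one_div]
    refine inv_anti₀ (by positivity) ?_
    linarith

/-- lower bound for the volume of a toric domain containing a box and a point outside of it -/
theorem volume_ge {Ω : Set (Fin n → ℝ)} (hΩ : IsConvexProfile Ω) {a w : Fin n → ℝ} (ha : a ∈ Ω)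
    (hw : w ∈ Ω) (ha0 : ∀ j, 0 < a j) (j : Fin n) {δ : ℝ} (hδ : 0 ≤ δ)
    (h : a j * (1 + δ) ≤ w j) :
    ENNReal.ofReal ((∏ i, a i) * (1 + δ / (3 * n))) ≤ volume (toric Ω) := by
  classical
  have hn : 1 ≤ n := by have := j.2; omega
  have hn0 : (0 : ℝ) < n := by exact_mod_cast hn
  have hn1 : (1 : ℝ) ≤ n := by exact_mod_cast hn
  have hq : (0 : ℝ) ≤ 1 - 1 / n := by
    rw [sub_nonneg, div_le_one hn0]; exact hn1
  set f : Fin n → ℝ := fun i => (1 - 1 / n) * a i with hf
  have hf0 : ∀ i, 0 ≤ f i := fun i => mul_nonneg hq (ha0 i).le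
  -- the corner
  have hcor : Function.update f j (a j * (1 + δ / n)) ∈ Ω := by
    have h1 : Function.update (fun _ : Fin n => (0 : ℝ)) j (a j * (1 + δ)) ∈ Ω := by
      refine profile_down hΩ hw (fun i => ?_) (fun i => ?_)
      · rcases eq_or_ne i j with rfl | hi
        · simp only [Function.update_self]
          have := ha0 i
          positivity
        · simp [hi]
      · rcases eq_or_ne i j with rfl | hi
        · simpa using h
        · simp only [Function.update_of_ne hi]
          exact hΩ.1 w hw i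
    have h2 := profile_conv hΩ ha h1 (s := 1 - 1 / n) (t := 1 / n) hq (by positivity) (by ring)
    have h3 : (fun i => (1 - 1 / (n : ℝ)) * a i +
        1 / n * Function.update (fun _ : Fin n => (0 : ℝ)) j (a j * (1 + δ)) i) =
        Function.update f j (a j * (1 + δ / n)) := by
      funext i
      rcases eq_or_ne i j with rfl | hi
      · simp only [Function.update_self]
        field_simp
        ring
      · simp only [Function.update_of_ne hi, mul_zero, add_zero, hf]
    rw [h3] at h2
    exact h2
  have hsub : box a ∪ box (Function.update f j (a j * (1 + δ / n))) ⊆ toric Ω :=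
    Set.union_subset (box_subset hΩ ha) (box_subset hΩ hcor)
  have hinter : box a ∩ box (Function.update f j (a j * (1 + δ / n))) =
      box (Function.update f j (a j)) := by
    ext z
    simp only [box, Set.mem_inter_iff, Set.mem_setOf_eq]
    constructor
    · rintro ⟨h1, h2⟩ i
      rcases eq_or_ne i j with rfl | hi
      · simpa using h1 i
      · simpa [hi] using h2 i
    · intro h1
      refine ⟨fun i => ?_, fun i => ?_⟩
      · rcases eq_or_ne i j with rfl | hi
        · simpa using h1 i
        · have h2 := h1 i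
          simp only [Function.update_of_ne hi] at h2
          refine h2.trans ?_
          rw [hf]
          have : (1 - 1 / (n : ℝ)) ≤ 1 := by
            have : (0 : ℝ) ≤ 1 / n := by positivity
            linarith
          have h3 := ha0 i
          nlinarith
      · rcases eq_or_ne i j with rfl | hi
        · have h2 := h1 i
          simp only [Function.update_self] at h2 ⊢
          refine h2.trans ?_
          have h3 := ha0 i
          have : 0 ≤ δ / n := by positivity
          nlinarith
        · have h2 := h1 i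
          simp only [Function.update_of_ne hi] at h2 ⊢
          exact h2
  set Q : ℝ := ∏ i ∈ Finset.univ \ {j}, f i with hQ
  have hQ0 : 0 ≤ Q := Finset.prod_nonneg fun i _ => hf0 i
  have hB : ∏ i, Function.update f j (a j * (1 + δ / n)) i = a j * (1 + δ / n) * Q :=
    Finset.prod_update_of_mem (Finset.mem_univ j) _ _
  have hC : ∏ i, Function.update f j (a j) i = a j * Q :=
    Finset.prod_update_of_mem (Finset.mem_univ j) _ _
  have hP0 : 0 < ∏ i, a i := Finset.prod_pos fun i _ => ha0 i
  have hQP : (∏ i, a i) / 3 ≤ a j * Q := by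
    have h1 : Q = (1 - 1 / n) ^ (n - 1) * ∏ i ∈ Finset.univ \ {j}, a i := by
      rw [hQ, hf, Finset.prod_mul_distrib, Finset.prod_const]
      congr 2
      rw [Finset.card_sdiff_of_subset (by simp)]
      simp
    have h2 : ∏ i, a i = a j * ∏ i ∈ Finset.univ \ {j}, a i := by
      rw [← Finset.prod_update_of_mem (Finset.mem_univ j) a (a j)]
      rw [Function.update_eq_self]
    have h3 : 0 < ∏ i ∈ Finset.univ \ {j}, a i := Finset.prod_pos fun i _ => ha0 i
    have h4 := third n hn
    have h5 := ha0 j
    calc (∏ i, a i) / 3 = (1 / 3) * (a j * ∏ i ∈ Finset.univ \ {j}, a i) := by rw [h2]; ring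
      _ ≤ (1 - 1 / n) ^ (n - 1) * (a j * ∏ i ∈ Finset.univ \ {j}, a i) := by gcongr
      _ = a j * Q := by rw [h1]; ring
  have hδn : 0 ≤ δ / n := by positivity
  have hupd : ∀ x : ℝ, 0 ≤ x → ∀ i, 0 ≤ Function.update f j x i := by
    intro x hx i
    rcases eq_or_ne i j with rfl | hi
    · simpa using hx
    · simpa [hi] using hf0 i
  have haj := ha0 j
  have hmeas := measure_union_add_inter (μ := volume) (box a)
    (measurableSet_box (Function.update f j (a j * (1 + δ / n))))
  rw [hinter, volume_box a (fun i => (ha0 i).le),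
    volume_box (Function.update f j (a j * (1 + δ / n))) (hupd _ (by positivity)),
    volume_box (Function.update f j (a j)) (hupd _ haj.le), hB, hC, ← ENNReal.ofReal_add hP0.le (by positivity)] at hmeas
  refine le_trans ?_ (measure_mono hsub)
  have h1 : ENNReal.ofReal ((∏ i, a i) * (1 + δ / (3 * n))) + ENNReal.ofReal (a j * Q) ≤
      volume (box a ∪ box (Function.update f j (a j * (1 + δ / n)))) +
        ENNReal.ofReal (a j * Q) := by
    rw [hmeas, ← ENNReal.ofReal_add (by positivity) (by positivity)]
    refine ENNReal.ofReal_le_ofReal ?_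
    have h2 : (∏ i, a i) * (δ / (3 * n)) ≤ a j * Q * (δ / n) := by
      calc (∏ i, a i) * (δ / (3 * n)) = (∏ i, a i) / 3 * (δ / n) := by
            field_simp
        _ ≤ a j * Q * (δ / n) := by gcongr
    nlinarith
  exact (ENNReal.add_le_add_iff_right ENNReal.ofReal_ne_top).1 h1

end Pool.Agent.Q194.KC
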